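import Pool.Agent.Y676.IS.MainIS

/-!
# Large and finite 2-primary parts of Tate-Shafarevich groups

For a positive proportion of the pairs of positive integers `A, B ≤ X` the curve
`E : y² = x (x - A) (x - B)` and its three 2-isogenous curves `E / ⟨T⟩`, `T` a point of order two, have
rank zero, the 2-primary part of `Ш(E)` is trivial, and the 2-primary parts of the Tate-Shafarevich
groups of the three other curves are finite and large: elementary abelian 2-groups of rank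
`(3 / 2 + o(1)) log log X`.
-/

set_option autoImplicit false

namespace Pool.Agent.Results.MP_e23604_nt.LargeFiniteSha

open WeierstrassCurve Pool.Agent.TH841.SH.D

/-- the curve `y² = x (x - A) (x - B)` -/
def E (A B : ℤ) : WeierstrassCurve ℚ := ⟨0, -((A : ℚ) + B), 0, (A : ℚ) * B, 0⟩

/-- the quotient of `y² = x (x - a) (x - b)` by its subgroup generated by `(0, 0)`: the curve
`y² = x³ + 2 (a + b) x² + (a - b)² x` -/
def Q (a b : ℤ) : WeierstrassCurve ℚ := ⟨0, 2 * ((a : ℚ) + b), 0, ((a : ℚ) - b) ^ 2, 0⟩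

/-- the quotients of `E A B` by the subgroups generated by `(0, 0)`, `(A, 0)`, `(B, 0)` -/
def E' (i : Fin 3) (A B : ℤ) : WeierstrassCurve ℚ := ![Q A B, Q (-A) (B - A), Q (-B) (A - B)] i

/-- The pair `(A, B)` is good: `E A B` has finitely many rational points, and its Tate-Shafarevich
group has trivial 2-primary part; the three 2-isogenous curves have finitely many rational points, and
the 2-primary parts of their Tate-Shafarevich groups are isomorphic to `(ℤ / 2) ^ k` with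
`|k - (3 / 2) log log X| ≤ δ log log X`. -/
def Good (δ : ℝ) (X : ℕ) (A B : ℤ) : Prop :=
  A ≠ B ∧ Finite (E A B).toAffine.Point ∧ AddCommGroup.primaryComponent (Sha (E A B)) 2 = ⊥ ∧
    ∀ i : Fin 3, Finite (E' i A B).toAffine.Point ∧ ∃ k : ℕ,
      |(k : ℝ) - 3 / 2 * Real.log (Real.log X)| ≤ δ * Real.log (Real.log X) ∧
      Nonempty (AddCommGroup.primaryComponent (Sha (E' i A B)) 2 ≃+ (Fin k → ZMod 2))

lemma mem_prim {G : Type} [AddCommGroup G] (x : G) :
    x ∈ AddCommGroup.primaryComponent G 2 ↔ ∃ j : ℕ, (2 ^ j) • x = 0 := Iff.rfl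

lemma E'_eq (i : Fin 3) (A B : ℤ) : E' i A B =
    Pool.Agent.TH841.LS.WI (Pool.Agent.Y676.IS.tri i A B).1 (Pool.Agent.Y676.IS.tri i A B).2 := by
  fin_cases i <;> rfl

lemma equiv_of {G : Type} [AddCommGroup G] {k : ℕ} (φ : (Fin k → ZMod 2) →+ G)
    (hi : Function.Injective φ) (hr : ∀ x, x ∈ Set.range φ ↔ ∃ j : ℕ, (2 ^ j) • x = 0) :
    Nonempty (AddCommGroup.primaryComponent G 2 ≃+ (Fin k → ZMod 2)) := by
  have h1 : φ.range = AddCommGroup.primaryComponent G 2 := by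
    ext x
    rw [mem_prim, ← hr, AddMonoidHom.mem_range]
    rfl
  rw [← h1]
  exact ⟨(AddMonoidHom.ofInjective hi).symm⟩

lemma good_of {δ : ℝ} {X : ℕ} {t : ℕ × ℕ} (h : Pool.Agent.Y676.IS.GoodI δ X t) :
    Good δ X t.1 t.2 := by
  obtain ⟨h1, h2, h3, h4⟩ := h
  refine ⟨by exact_mod_cast h1, h2, ?_, fun i => ?_⟩
  · rw [eq_bot_iff]
    intro x hx
    obtain ⟨j, hj⟩ := (mem_prim x).1 hx
    have h5 := h3 j
    have h6 := h5.elim ⟨x, hj⟩ ⟨0, smul_zero _⟩
    exact (AddSubgroup.mem_bot).2 (congrArg Subtype.val h6)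
  · rw [E'_eq]
    obtain ⟨g1, k, g2, φ, g3, g4⟩ := h4 i
    exact ⟨g1, k, g2, equiv_of φ g3 g4⟩

open Classical in
/-- **Main theorem.** There is `c > 0` such that for every `δ > 0` and all sufficiently large `X` at
least `c X²` pairs of integers `A, B` between `1` and `X` are good. -/
theorem result : ∃ c : ℝ, 0 < c ∧ ∀ δ : ℝ, 0 < δ → ∃ X₀ : ℕ, ∀ X : ℕ, X₀ ≤ X →
    c * (X : ℝ) ^ 2 ≤ (((Finset.Icc 1 X ×ˢ Finset.Icc 1 X).filter (fun t : ℕ × ℕ =>
      Good δ X t.1 t.2)).card : ℝ) := by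
  obtain ⟨c, hc, h⟩ := Pool.Agent.Y676.IS.mainI
  refine ⟨c, hc, fun δ hδ => ?_⟩
  obtain ⟨X₀, h0⟩ := h δ hδ
  refine ⟨X₀, fun X hX => (h0 X hX).trans (Nat.cast_le.2 (Finset.card_le_card fun t ht => ?_))⟩
  rw [Finset.mem_filter] at ht ⊢
  exact ⟨ht.1, good_of ht.2⟩

end Pool.Agent.Results.MP_e23604_nt.LargeFiniteSha
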