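import Mathlib
import Pool.Agent.Y723.Z8.ShaN
import Pool.Agent.W307.RT.Tors
import Pool.Agent.W554.RS.MDL

/-!
# Tate-Shafarevich groups of the curves with torsion `Z/2 x Z/4`, `Z/2 x Z/6` or `Z/2 x Z/8`

Let `m` be `4`, `6` or `8`. We consider all elliptic curves over `ℚ` whose group of rational points
has a subgroup isomorphic to `Z/2 x Z/m`, ordered by the absolute value of the minimal discriminant.
The average of the order of `Ш[2]` over these curves is bounded by a constant, and so are, with the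
same constant, the averages of `#Ш[2 ^ k] ^ (1 / k)` for all `k`; the proportion of the curves whose
Tate-Shafarevich group contains a subgroup `(ℚ₂ / ℤ₂) ^ δ` is at most `C / 2 ^ δ`.
-/

set_option autoImplicit false

namespace Pool.Agent.Results.MP_e23604_nt.NoncyclicTorsion

open Finset Filter

open Pool.Agent.TH841.SH.D (Sha ShaTor HasDiv)

/-- the curve `y² = x³ + A x + B` over `ℚ` -/
def E (A B : ℤ) : WeierstrassCurve ℚ := ⟨0, 0, 0, (A : ℚ), (B : ℚ)⟩

/-- the absolute value of the minimal discriminant of an elliptic curve `W` over `ℚ`: the smallest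
absolute value of the discriminant of a Weierstrass equation `V` with integer coefficients which is
isomorphic to `W` over `ℚ` -/
noncomputable def minDisc (W : WeierstrassCurve ℚ) : ℕ :=
  sInf {n : ℕ | ∃ (V : WeierstrassCurve ℤ) (C : WeierstrassCurve.VariableChange ℚ),
    C • W = V.map (Int.castRingHom ℚ) ∧ n = V.Δ.natAbs}

/-- The pairs `(A, B)` of integers such that `4 A³ + 27 B² ≠ 0`, there is no prime `p` with
`p⁴ ∣ A` and `p⁶ ∣ B`, the minimal discriminant of `y² = x³ + A x + B` is at most `Z`, and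
`Z/2 x Z/m` embeds in the group of its rational points. (Every elliptic curve over `ℚ` is
isomorphic to `E A B` for exactly one pair with the first two properties.) -/
def Fam (m Z : ℕ) : Set (ℤ × ℤ) :=
  {c : ℤ × ℤ | 4 * c.1 ^ 3 + 27 * c.2 ^ 2 ≠ 0 ∧
    (∀ p : ℕ, p.Prime → ¬ ((p : ℤ) ^ 4 ∣ c.1 ∧ (p : ℤ) ^ 6 ∣ c.2)) ∧
    (∃ f : ZMod 2 × ZMod m →+ (E c.1 c.2).toAffine.Point, Function.Injective f) ∧
    minDisc (E c.1 c.2) ≤ Z}

lemma Fam_eq (m Z : ℕ) : Fam m Z = Pool.Agent.W307.RS.DvS m Z := by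
  ext c
  have h : Pool.Agent.W307.RT.HasT m (Pool.Agent.W307.RT.Sh c.1 c.2) ↔
      ∃ f : ZMod 2 × ZMod m →+ (E c.1 c.2).toAffine.Point, Function.Injective f :=
    Pool.Agent.W307.RT.tors_iff
  unfold Fam Pool.Agent.W307.RS.DvS
  rw [Set.mem_ofPred_eq, Set.mem_ofPred_eq, h]
  exact Iff.rfl

open Classical in
/-- **Theorem.** Let `m` be `4`, `6` or `8`. There are finitely many elliptic curves over `ℚ` with a
subgroup `Z/2 x Z/m` of rational points and minimal discriminant at most `Z` in absolute value, and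
their number tends to infinity with `Z`. The groups `Ш[2 ^ k]` of these curves are finite, and with a
constant `C` that depends neither on `Z` nor on `k`, `δ`: the average of `#Ш[2 ^ k] ^ (1 / k)` over
these curves is at most `C` (for `k = 1` this is the average of `#Ш[2]`), and the proportion of the
curves whose Tate-Shafarevich group has a subgroup isomorphic to `(ℚ₂ / ℤ₂) ^ δ` is at most
`C / 2 ^ δ`. -/
theorem result (m : ℕ) (hm : m = 4 ∨ m = 6 ∨ m = 8) :
    Tendsto (fun Z : ℕ => (Fam m Z).ncard) atTop atTop ∧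
    ∃ C : ℝ, ∀ Z : ℕ, ∃ hfin : (Fam m Z).Finite,
      (∀ c ∈ Fam m Z, ∀ k : ℕ, Finite (ShaTor (E c.1 c.2) (2 ^ k))) ∧
      (∀ k : ℕ, 1 ≤ k → ∑ c ∈ hfin.toFinset,
        (Nat.card (ShaTor (E c.1 c.2) (2 ^ k)) : ℝ) ^ ((1 : ℝ) / k) ≤
          C * hfin.toFinset.card) ∧
      ∀ δ : ℕ, ((hfin.toFinset.filter (fun c => HasDiv (E c.1 c.2) δ)).card : ℝ) ≤
        C * hfin.toFinset.card / 2 ^ δ := by
  constructor
  · simp only [Fam_eq]
    exact Pool.Agent.Y723.Z8.ShaN.tendstoD hm
  · obtain ⟨C, hC⟩ := Pool.Agent.Y723.Z8.ShaN.shaD hm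
    refine ⟨C, fun Z => ?_⟩
    obtain ⟨h1, h2⟩ := hC Z
    rw [← Fam_eq] at h1 h2
    have h3 := h2 h1.toFinset h1.coe_toFinset
    exact ⟨h1, fun c hc k => h3.1 c (h1.mem_toFinset.2 hc) k, fun k hk => h3.sha hk,
      fun δ => h3.div δ⟩

end Pool.Agent.Results.MP_e23604_nt.NoncyclicTorsion
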