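import Mathlib
import Pool.Agent.Y676.MainB
import Pool.Agent.Y676.Tsm
import Pool.Agent.Y660.TS.Rnk
import Pool.Agent.Y660.TS.Mom
import Pool.Agent.Y46.KEY.Key
import Pool.Agent.W307.RT.Tors

/-!
# A positive proportion of the small prime twists have trivial 2-primary part of Ш
-/

set_option autoImplicit false

namespace Pool.Agent.Results.MP_e23604_nt.PositiveProportionTwists

open Finset

open Pool.Agent.TH841.SH.D (Sha ShaTor rk)

/-- the curve `y² = x³ + A x + B` over `ℚ` -/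
def E (A B : ℤ) : WeierstrassCurve ℚ := ⟨0, 0, 0, (A : ℚ), (B : ℚ)⟩

/-- the quadratic twist by `d` of the curve `y² = x³ + A x + B`, `c = (A, B)` -/
def Tw (d : ℤ) (c : ℤ × ℤ) : WeierstrassCurve ℚ := E (d ^ 2 * c.1) (d ^ 3 * c.2)

open Classical in
/-- The pairs `(A, B)` of integers such that `4 A³ + 27 B² ≠ 0`, there is no prime `p` with
`p⁴ ∣ A` and `p⁶ ∣ B`, the height `max (4 |A|³) (27 B²)` is at most `H`, and `Z/2 x Z/2` embeds in
the group of the rational points of `y² = x³ + A x + B`. (The bounds `|A|, |B| ≤ H` follow from the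
bound of the height. Every elliptic curve over `ℚ` is isomorphic to `E A B` for exactly one pair
with the first two properties.) -/
noncomputable def Fam (H : ℕ) : Finset (ℤ × ℤ) :=
  ((Icc (-(H : ℤ)) H) ×ˢ (Icc (-(H : ℤ)) H)).filter (fun c : ℤ × ℤ =>
    4 * c.1 ^ 3 + 27 * c.2 ^ 2 ≠ 0 ∧ 4 * |c.1| ^ 3 ≤ H ∧ 27 * c.2 ^ 2 ≤ H ∧
    (∀ p : ℕ, p.Prime → ¬ ((p : ℤ) ^ 4 ∣ c.1 ∧ (p : ℤ) ^ 6 ∣ c.2)) ∧
    ∃ f : ZMod 2 × ZMod 2 →+ (E c.1 c.2).toAffine.Point, Function.Injective f)

open Classical in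
/-- the primes `q ≤ Q` such that the twist by `q` of every curve of the tuple has rank `0` and
no element of order `2` in its Tate-Shafarevich group: all the groups `Ш[2 ^ j]` are trivial -/
noncomputable def TQ {k : ℕ} (Q : ℕ) (c : Fin k → ℤ × ℤ) : Finset ℕ :=
  (Icc 1 Q).filter (fun q => q.Prime ∧ ∀ i, rk (Tw q (c i)) = 0 ∧
    ∀ j : ℕ, Subsingleton (ShaTor (Tw q (c i)) (2 ^ j)))

lemma Fam_eq (H : ℕ) : Fam H = Pool.Agent.W307.RT.Cv 2 H := by
  classical
  unfold Fam Pool.Agent.W307.RT.Cv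
  apply filter_congr
  intro c _
  have h : Pool.Agent.W307.RT.HasT 2 (Pool.Agent.W307.RT.Sh c.1 c.2) ↔
      ∃ f : ZMod 2 × ZMod 2 →+ (E c.1 c.2).toAffine.Point, Function.Injective f :=
    Pool.Agent.W307.RT.tors_iff
  rw [h]

lemma TQ_eq {k : ℕ} (Q : ℕ) (c : Fin k → ℤ × ℤ) : TQ Q c = Pool.Agent.Y676.TQ Q c := by
  classical
  unfold TQ Pool.Agent.Y676.TQ
  exact filter_congr fun q _ => Iff.rfl

open Classical in
/-- **Theorem.** For every `k` there is a constant `C` such that for every `ε > 0` there is a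
constant `c > 0` such that for all large `H` and all `Q ≥ (log H) ^ C` the following holds for all
but at most `ε * (#Fam H) ^ k` of the `k`-tuples of the elliptic curves over `ℚ` with full rational
2-torsion and height at most `H`: there are at least `c * Q / log Q` primes `q ≤ Q` (a positive
proportion of all the primes up to `Q`) such that the twists by `q` of all the curves of the tuple
have rank `0` and trivial 2-primary Tate-Shafarevich group. -/
theorem result : ∀ k : ℕ, ∃ C : ℕ, ∀ ε : ℝ, 0 < ε → ∃ c : ℝ, 0 < c ∧ ∃ H₀ : ℕ, ∀ H : ℕ, H₀ ≤ H →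
    ∀ Q : ℕ, (Real.log H) ^ C ≤ Q →
    (((Fintype.piFinset (fun _ : Fin k => Fam H)).filter (fun x : Fin k → ℤ × ℤ =>
      ¬ c * Q / Real.log Q ≤ ((TQ Q x).card : ℝ))).card : ℝ) ≤
        ε * ((Fam H).card : ℝ) ^ k := by
  intro k
  refine ⟨Pool.Agent.Y676.CE k, fun ε hε => ?_⟩
  simp only [Fam_eq, TQ_eq]
  exact Pool.Agent.Y676.mainB
    (Pool.Agent.Y46.KEY.key_of Pool.Agent.Y660.TS.rnk Pool.Agent.Y676.Tsm.tsm)
    Pool.Agent.Y660.TS.mom k ε hε

end Pool.Agent.Results.MP_e23604_nt.PositiveProportionTwists
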